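import Pool.Agent.Lib.MP_e32423_an.Gap3
import Pool.Agent.Lib.MP_e32423_an.RhombusGap

set_option autoImplicit false

namespace Pool.Agent.Results.MP_e32423_an.RobinGapFails

open Pool.Agent.MP_e32423_an

/-- **The Robin fundamental gap is not minimised by degenerating domains with zero potential.**
For `n = 2`, `d = 1` and every Robin constant `0 < α ≤ 10⁻¹²` there are a bounded convex plane
domain `Ω` of diameter `1` and a continuous potential `V`, convex on the closure of `Ω`, whose gap
is strictly smaller than `Γ_seg(2, 1, α)`; moreover the gap can be made smaller than any given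
`ε > 0`. -/
theorem result :
    ∀ α : ℝ, 0 < α → α ≤ 1 / 10 ^ 12 → ∀ ε : ℝ, 0 < ε →
      ∃ (Ω : Set Plane) (V : Plane → ℝ), IsConvexDomain 1 Ω ∧ ConvexOn ℝ (closure Ω) V ∧
        Continuous V ∧ fundamentalGap α Ω V < ε ∧
        ((fundamentalGap α Ω V : ℝ) : EReal) < gammaSeg 1 α := by
  intro α hα0 hα1 ε hε
  have hα1' : α ≤ 1 / 1000000000000 := by norm_num at hα1 ⊢; exact hα1
  obtain ⟨K, hK, hgap⟩ := rhombus_gap (α := α) (ε := min ε 1) hα0.le (by linarith)
    (lt_min hε one_pos)
  refine ⟨rhombus, VK K, rhombus_dom, ?_, ?_, lt_of_lt_of_le hgap (min_le_left _ _), ?_⟩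
  · refine ⟨rhombus_dom.convex.closure, ?_⟩
    intro z _ w _ s t hs ht hst
    have e : (s • z + t • w) 1 = s * z 1 + t * w 1 := by simp
    simp only [VK, smul_eq_mul]
    rw [e]
    have h1 : (s * z 1 + t * w 1) ^ 2 ≤ s * z 1 ^ 2 + t * w 1 ^ 2 := by
      have h2 : t = 1 - s := by linarith
      have h3 : 0 ≤ s * t * (z 1 - w 1) ^ 2 := by positivity
      rw [h2] at h3 ⊢
      nlinarith
    have h4 := mul_le_mul_of_nonneg_left h1 (sq_nonneg K)
    linarith
  · unfold VK
    fun_prop
  · refine lt_of_lt_of_le ?_ (gammaSeg_ge hα0 hα1')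
    have h1 : fundamentalGap α rhombus (VK K) < 1 := lt_of_lt_of_le hgap (min_le_right _ _)
    exact_mod_cast h1

end Pool.Agent.Results.MP_e32423_an.RobinGapFails
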